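import Pool.Agent.J4H58.SB.Stm

/-!
# KB-M2: second moment of an even log-concave density (helper49, for project KB of helper58)
-/

set_option autoImplicit false

namespace Pool.Agent.J4H49.KB

open MeasureTheory Set Filter Topology
open scoped ENNReal
open Pool.Agent.J4H58.SB
open Pool.Agent.J4H58.OC (LD nu)

variable {w : ℝ → ℝ}

theorem w_mono (h : LD w) (he : ∀ x, w (-x) = w x) {x y : ℝ} (hx : 0 ≤ x) (hxy : x ≤ y) :
    w y ≤ w x := by
  rcases hxy.eq_or_lt with rfl | hlt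
  · exact le_rfl
  have hy : 0 < y := lt_of_le_of_lt hx hlt
  have ht : (x + y) / (2 * y) < 1 := by
    rw [div_lt_one (by positivity)]
    linarith
  have ht0 : 0 < (x + y) / (2 * y) := by positivity
  have h1 := h.logc (-y) y ((x + y) / (2 * y)) ht0 ht
  rw [he, ← Real.rpow_add_of_nonneg (h.nonneg y) (by linarith) ht0.le] at h1
  have h2 : (1 - (x + y) / (2 * y)) + (x + y) / (2 * y) = 1 := by ring
  have h3 : (1 - (x + y) / (2 * y)) * -y + (x + y) / (2 * y) * y = x := by
    field_simp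
    ring
  rwa [h2, h3, Real.rpow_one] at h1

theorem w_abs (he : ∀ x, w (-x) = w x) (x : ℝ) : w |x| = w x := by
  rcases abs_cases x with ⟨h, _⟩ | ⟨h, _⟩
  · rw [h]
  · rw [h, he]

theorem w_le_zero (h : LD w) (he : ∀ x, w (-x) = w x) (x : ℝ) : w x ≤ w 0 := by
  rw [← w_abs he x]
  exact w_mono h he le_rfl (abs_nonneg x)

theorem w0_pos (h : LD w) (he : ∀ x, w (-x) = w x) : 0 < w 0 := by
  rcases (h.nonneg 0).eq_or_lt with h0 | h0
  · exfalso
    have h1 : ∀ x, w x = 0 := fun x => le_antisymm (by rw [h0]; exact w_le_zero h he x) (h.nonneg x)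
    have h2 := h.one
    simp only [h1, integral_zero] at h2
    exact zero_ne_one h2
  · exact h0

theorem w_half (h : LD w) (he : ∀ x, w (-x) = w x) : ∫ x in Ioi (0 : ℝ), w x = 1 / 2 := by
  have h1 := integral_comp_abs (f := w)
  simp_rw [w_abs he] at h1
  rw [h.one] at h1
  linarith

theorem e_int1 {r : ℝ} (hr : 0 < r) : ∫ x in Ioi (0 : ℝ), r * Real.exp (-(r * x)) = 1 := by
  have h1 := Real.integral_rpow_mul_exp_neg_mul_Ioi (a := 1) (r := r) one_pos hr
  simp only [sub_self, Real.rpow_zero, one_mul, Real.rpow_one, Real.Gamma_one, mul_one] at h1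
  rw [integral_const_mul, h1]
  field_simp

theorem e_int3 {r : ℝ} (hr : 0 < r) :
    ∫ x in Ioi (0 : ℝ), x ^ 2 * (r * Real.exp (-(r * x))) = 2 / r ^ 2 := by
  have h1 := Real.integral_rpow_mul_exp_neg_mul_Ioi (a := 3) (r := r) (by norm_num) hr
  have h2 : ∫ x in Ioi (0 : ℝ), x ^ 2 * (r * Real.exp (-(r * x))) =
      ∫ x in Ioi (0 : ℝ), r * (x ^ ((3 : ℝ) - 1) * Real.exp (-(r * x))) := by
    apply integral_congr_ae
    refine Eventually.of_forall fun x => ?_
    simp only
    rw [show (3 : ℝ) - 1 = ((2 : ℕ) : ℝ) by norm_num, Real.rpow_natCast]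
    ring
  rw [h2, integral_const_mul, h1]
  have h3 : Real.Gamma 3 = 2 := by
    have := Real.Gamma_nat_eq_factorial 2
    rw [show ((2 : ℕ) : ℝ) + 1 = 3 by norm_num] at this
    rw [this]
    norm_num [Nat.factorial]
  rw [h3, show (3 : ℝ) = ((3 : ℕ) : ℝ) by norm_num, Real.rpow_natCast]
  field_simp

theorem e_on1 {r : ℝ} (hr : 0 < r) : IntegrableOn (fun x : ℝ => r * Real.exp (-(r * x))) (Ioi 0) := by
  by_contra hcon
  have := e_int1 hr
  rw [integral_undef hcon] at this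
  exact zero_ne_one this

theorem e_on3 {r : ℝ} (hr : 0 < r) :
    IntegrableOn (fun x : ℝ => x ^ 2 * (r * Real.exp (-(r * x)))) (Ioi 0) := by
  by_contra hcon
  have := e_int3 hr
  rw [integral_undef hcon] at this
  have h1 : 0 < 2 / r ^ 2 := by positivity
  linarith

theorem cross (h : LD w) (he : ∀ x, w (-x) = w x) {a x : ℝ} (ha : 0 ≤ a) (hax : a < x)
    (hw : w a < w 0 * Real.exp (-(w 0 * a))) : w x < w 0 * Real.exp (-(w 0 * x)) := by
  have h0 := w0_pos h he
  rcases ha.eq_or_lt with h1 | h1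
  · rw [← h1] at hw
    simp at hw
  by_contra hcon
  push Not at hcon
  have hx : 0 < x := h1.trans hax
  have ht : a / x < 1 := by rwa [div_lt_one hx]
  have ht0 : 0 < a / x := by positivity
  have h2 := h.logc 0 x (a / x) ht0 ht
  have h3 : (1 - a / x) * 0 + a / x * x = a := by field_simp; ring
  rw [h3] at h2
  have h4 : (w 0 * Real.exp (-(w 0 * x))) ^ (a / x) ≤ w x ^ (a / x) :=
    Real.rpow_le_rpow (by positivity) hcon ht0.le
  rw [Real.mul_rpow h0.le (Real.exp_pos _).le, ← Real.exp_mul] at h4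
  have h5 : -(w 0 * x) * (a / x) = -(w 0 * a) := by field_simp
  rw [h5] at h4
  have h6 : w 0 ^ (1 - a / x) * w 0 ^ (a / x) = w 0 := by
    rw [← Real.rpow_add h0]
    simp
  have h7 : w 0 ^ (1 - a / x) * (w 0 ^ (a / x) * Real.exp (-(w 0 * a))) ≤
      w 0 ^ (1 - a / x) * w x ^ (a / x) := by gcongr
  rw [← mul_assoc, h6] at h7
  linarith

/-- the pointwise comparison -/
theorem pointwise (h : LD w) (he : ∀ x, w (-x) = w x) : ∃ x0 : ℝ, ∀ x, 0 ≤ x →
    x ^ 2 * w x ≤ x ^ 2 * (w 0 * Real.exp (-(w 0 * x))) +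
      x0 ^ 2 * (w x - w 0 * Real.exp (-(w 0 * x))) := by
  have h0 := w0_pos h he
  set A : Set ℝ := {x | 0 ≤ x ∧ w x < w 0 * Real.exp (-(w 0 * x))} with hA
  have hne : A.Nonempty := by
    by_contra hcon
    rw [Set.not_nonempty_iff_eq_empty] at hcon
    have h1 : ∀ x, 0 ≤ x → w 0 * Real.exp (-(w 0 * x)) ≤ w x := by
      intro x hx
      by_contra h2
      push Not at h2
      have : x ∈ A := ⟨hx, h2⟩
      rw [hcon] at this
      exact this
    have h2 : ∫ x in Ioi (0 : ℝ), w 0 * Real.exp (-(w 0 * x)) ≤ ∫ x in Ioi (0 : ℝ), w x :=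
      setIntegral_mono_on (e_on1 h0) h.int.integrableOn measurableSet_Ioi
        fun x hx => h1 x (le_of_lt hx)
    rw [e_int1 h0, w_half h he] at h2
    norm_num at h2
  have hbd : BddBelow A := ⟨0, fun x hx => hx.1⟩
  refine ⟨sInf A, fun x hx => ?_⟩
  have hs : 0 ≤ sInf A := Real.sInf_nonneg fun x hx => hx.1
  by_cases hc : w x < w 0 * Real.exp (-(w 0 * x))
  · have h1 : sInf A ≤ x := csInf_le hbd ⟨hx, hc⟩
    have h2 : sInf A ^ 2 ≤ x ^ 2 := pow_le_pow_left₀ hs h1 2
    nlinarith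
  · have h1 : x ≤ sInf A := by
      by_contra h2
      push Not at h2
      obtain ⟨a, ha, hax⟩ := exists_lt_of_csInf_lt hne h2
      exact hc (cross h he ha.1 hax ha.2)
    have h2 : x ^ 2 ≤ sInf A ^ 2 := pow_le_pow_left₀ hx h1 2
    push Not at hc
    nlinarith

theorem sq_on (h : LD w) (he : ∀ x, w (-x) = w x) :
    IntegrableOn (fun x : ℝ => x ^ 2 * w x) (Ioi 0) ∧
      ∫ x in Ioi (0 : ℝ), x ^ 2 * w x ≤ 2 / w 0 ^ 2 := by
  have h0 := w0_pos h he
  obtain ⟨x0, hp⟩ := pointwise h he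
  have hi : IntegrableOn (fun x : ℝ => x ^ 2 * (w 0 * Real.exp (-(w 0 * x))) +
      x0 ^ 2 * (w x - w 0 * Real.exp (-(w 0 * x)))) (Ioi 0) :=
    (e_on3 h0).add ((h.int.integrableOn.sub (e_on1 h0)).const_mul _)
  have hj : IntegrableOn (fun x : ℝ => x ^ 2 * w x) (Ioi 0) := by
    refine Integrable.mono' hi ?_ ?_
    · exact ((measurable_id.pow_const 2).aestronglyMeasurable).mul h.int.1.restrict
    · refine (ae_restrict_iff' measurableSet_Ioi).2 (Eventually.of_forall fun x hx => ?_)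
      rw [Real.norm_eq_abs, abs_of_nonneg (mul_nonneg (sq_nonneg x) (h.nonneg x))]
      exact hp x (le_of_lt hx)
  refine ⟨hj, ?_⟩
  have h1 := setIntegral_mono_on hj hi measurableSet_Ioi fun x hx => hp x (le_of_lt hx)
  have h2 : ∫ x in Ioi (0 : ℝ), (x ^ 2 * (w 0 * Real.exp (-(w 0 * x))) +
      x0 ^ 2 * (w x - w 0 * Real.exp (-(w 0 * x)))) =
      (∫ x in Ioi (0 : ℝ), x ^ 2 * (w 0 * Real.exp (-(w 0 * x)))) +
      ∫ x in Ioi (0 : ℝ), x0 ^ 2 * (w x - w 0 * Real.exp (-(w 0 * x))) :=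
    integral_add (e_on3 h0) ((h.int.integrableOn.sub (e_on1 h0)).const_mul _)
  have h3 : ∫ x in Ioi (0 : ℝ), (w x - w 0 * Real.exp (-(w 0 * x))) =
      (∫ x in Ioi (0 : ℝ), w x) - ∫ x in Ioi (0 : ℝ), w 0 * Real.exp (-(w 0 * x)) :=
    integral_sub h.int.integrableOn (e_on1 h0)
  rw [h2, integral_const_mul, h3, e_int3 h0, e_int1 h0, w_half h he] at h1
  nlinarith [sq_nonneg x0]

theorem sq_int (h : LD w) (he : ∀ x, w (-x) = w x) : Integrable (fun x : ℝ => x ^ 2 * w x) := by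
  have h1 := (integrable_indicator_iff measurableSet_Ioi).2 (sq_on h he).1
  have h2 := h1.comp_neg
  refine (h1.add h2).congr ?_
  have h0 : ∀ᵐ u : ℝ, u ≠ 0 := by
    rw [ae_iff]
    simp
  filter_upwards [h0] with x hx
  rw [Pi.add_apply]
  rcases lt_or_gt_of_ne hx with h3 | h3
  · rw [indicator_of_notMem (by simpa using h3.le), indicator_of_mem (by simpa using h3), he]
    ring
  · rw [indicator_of_mem (by simpa using h3), indicator_of_notMem (by simpa using h3.le)]
    ring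

theorem t_M2 : S_M2 := by
  intro w h he
  have h0 := w0_pos h he
  have hm : AEMeasurable (fun x => ENNReal.ofReal (w x)) := h.int.1.aemeasurable.ennreal_ofReal
  have hlt : ∀ᵐ x, ENNReal.ofReal (w x) < ∞ := Eventually.of_forall fun x => ENNReal.ofReal_lt_top
  have hi := sq_int h he
  refine ⟨h0, ?_, ?_⟩
  · unfold nu
    rw [integrable_withDensity_iff_integrable_smul₀' hm hlt]
    refine hi.congr (Eventually.of_forall fun x => ?_)
    simp only
    rw [ENNReal.toReal_ofReal (h.nonneg x), smul_eq_mul, mul_comm]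
  · unfold nu
    rw [integral_withDensity_eq_integral_toReal_smul₀ hm hlt]
    have h1 : ∫ x, (ENNReal.ofReal (w x)).toReal • x ^ 2 = ∫ x, (fun x => x ^ 2 * w x) |x| := by
      apply integral_congr_ae
      refine Eventually.of_forall fun x => ?_
      simp only
      rw [ENNReal.toReal_ofReal (h.nonneg x), smul_eq_mul, w_abs he, sq_abs, mul_comm]
    have h4 := integral_comp_abs (f := fun x => x ^ 2 * w x)
    rw [h1, h4]
    have h2 := (sq_on h he).2
    have h3 : 4 / w 0 ^ 2 = 2 * (2 / w 0 ^ 2) := by ring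
    rw [h3]
    linarith

end Pool.Agent.J4H49.KB
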