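import Pool.Agent.J4H49.KB.M2
import Pool.Agent.J4H47.OC.Q

/-!
# KB-MAP: a small odd expansion of the line (helper49, for project KB of helper58)
-/

set_option autoImplicit false

namespace Pool.Agent.J4H49.KB

open MeasureTheory Set Filter Topology
open scoped ENNReal
open Pool.Agent.J4H58.SB
open Pool.Agent.J4H58.OC (LD nu qt Fc)
open Pool.Agent.J4H47.OC

noncomputable section

/-- the map of the unit interval -/
def ze (ε u : ℝ) : ℝ := (1 - ε) * u + ε * (|u - 1 / 4| - |u - 3 / 4| + 1 / 2)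

open Classical in
/-- density of the image of the uniform law -/
def zr (ε v : ℝ) : ℝ := if (1 - ε) / 4 < v ∧ v < 1 - (1 - ε) / 4 then 1 / (1 + ε) else 1 / (1 - ε)

theorem ze_lo {ε u : ℝ} (h : u ≤ 1 / 4) : ze ε u = (1 - ε) * u := by
  unfold ze
  rw [abs_of_nonpos (by linarith), abs_of_nonpos (by linarith)]
  ring

theorem ze_mid {ε u : ℝ} (h : 1 / 4 ≤ u) (h2 : u ≤ 3 / 4) : ze ε u = (1 + ε) * u - ε / 2 := by
  unfold ze
  rw [abs_of_nonneg (by linarith), abs_of_nonpos (by linarith)]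
  ring

theorem ze_hi {ε u : ℝ} (h : 3 / 4 ≤ u) : ze ε u = (1 - ε) * u + ε := by
  unfold ze
  rw [abs_of_nonneg (by linarith), abs_of_nonneg (by linarith)]
  ring

theorem ze_sym (ε u : ℝ) : ze ε (1 - u) = 1 - ze ε u := by
  unfold ze
  have h1 : |1 - u - 1 / 4| = |u - 3 / 4| := by
    rw [← abs_neg]
    congr 1
    ring
  have h2 : |1 - u - 3 / 4| = |u - 1 / 4| := by
    rw [← abs_neg]
    congr 1
    ring
  rw [h1, h2]
  ring

theorem zr_sym (ε v : ℝ) : zr ε (1 - v) = zr ε v := by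
  unfold zr
  have : ((1 - ε) / 4 < 1 - v ∧ 1 - v < 1 - (1 - ε) / 4) ↔ ((1 - ε) / 4 < v ∧ v < 1 - (1 - ε) / 4) := by
    constructor
    · rintro ⟨h1, h2⟩
      constructor <;> linarith
    · rintro ⟨h1, h2⟩
      constructor <;> linarith
  simp only [this]

theorem zr_bd {ε : ℝ} (h0 : 0 < ε) (h1 : ε ≤ 1 / 2) (v : ℝ) : |zr ε v - 1| ≤ 2 * ε := by
  unfold zr
  split_ifs
  · have h2 : 1 / (1 + ε) - 1 = -(ε / (1 + ε)) := by field_simp; ring
    rw [h2, abs_neg, abs_of_nonneg (by positivity), div_le_iff₀ (by positivity)]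
    nlinarith
  · have h3 : 0 < 1 - ε := by linarith
    have h2 : 1 / (1 - ε) - 1 = ε / (1 - ε) := by field_simp; ring
    rw [h2, abs_of_nonneg (by positivity), div_le_iff₀ (by positivity)]
    nlinarith

theorem zr_meas (ε : ℝ) : Measurable (zr ε) := by
  unfold zr
  refine Measurable.ite ?_ measurable_const measurable_const
  exact measurableSet_Ioo

theorem ze_strict {ε : ℝ} (h0 : 0 < ε) (h1 : ε ≤ 1 / 2) : StrictMono (ze ε) := by
  intro u v huv
  have h2 : |u - 1 / 4| - |u - 3 / 4| ≤ |v - 1 / 4| - |v - 3 / 4| := by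
    rcases abs_cases (u - 1 / 4) with ⟨a1, a2⟩ | ⟨a1, a2⟩ <;>
    rcases abs_cases (u - 3 / 4) with ⟨b1, b2⟩ | ⟨b1, b2⟩ <;>
    rcases abs_cases (v - 1 / 4) with ⟨c1, c2⟩ | ⟨c1, c2⟩ <;>
    rcases abs_cases (v - 3 / 4) with ⟨d1, d2⟩ | ⟨d1, d2⟩ <;>
    rw [a1, b1, c1, d1] <;> linarith
  unfold ze
  nlinarith

theorem ze_cont (ε : ℝ) : Continuous (ze ε) := by
  unfold ze
  fun_prop

theorem ze_zero (ε : ℝ) : ze ε 0 = 0 := by
  rw [ze_lo (by norm_num)]
  ring

theorem ze_one (ε : ℝ) : ze ε 1 = 1 := by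
  rw [ze_hi (by norm_num)]
  ring

theorem ze_Ioo {ε : ℝ} (h0 : 0 < ε) (h1 : ε ≤ 1 / 2) {u : ℝ} (hu : u ∈ Ioo (0 : ℝ) 1) :
    ze ε u ∈ Ioo (0 : ℝ) 1 := by
  constructor
  · rw [← ze_zero ε]
    exact ze_strict h0 h1 hu.1
  · conv_rhs => rw [← ze_one ε]
    exact ze_strict h0 h1 hu.2

theorem ze_image {ε : ℝ} (h0 : 0 < ε) (h1 : ε ≤ 1 / 2) : ze ε '' Ioo 0 1 = Ioo 0 1 := by
  apply Subset.antisymm
  · rintro _ ⟨u, hu, rfl⟩
    exact ze_Ioo h0 h1 hu
  · have := intermediate_value_Ioo (f := ze ε) zero_le_one (ze_cont ε).continuousOn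
    rwa [ze_zero, ze_one] at this

open Classical in
/-- derivative -/
def zd (ε u : ℝ) : ℝ := if 1 / 4 < u ∧ u < 3 / 4 then 1 + ε else 1 - ε

theorem ze_deriv {ε u : ℝ} (h1 : u ≠ 1 / 4) (h2 : u ≠ 3 / 4) : HasDerivAt (ze ε) (zd ε u) u := by
  rcases lt_or_gt_of_ne h1 with h3 | h3
  · have h4 : zd ε u = 1 - ε := by
      unfold zd
      rw [if_neg (fun h => absurd h.1 (by linarith))]
    rw [h4]
    have h5 : HasDerivAt (fun x : ℝ => (1 - ε) * x) (1 - ε) u := by
      simpa using (hasDerivAt_id u).const_mul (1 - ε)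
    refine h5.congr_of_eventuallyEq ?_
    filter_upwards [Iio_mem_nhds h3] with x hx
    exact ze_lo (le_of_lt hx)
  · rcases lt_or_gt_of_ne h2 with h6 | h6
    · have h4 : zd ε u = 1 + ε := by
        unfold zd
        rw [if_pos ⟨h3, h6⟩]
      rw [h4]
      have h5 : HasDerivAt (fun x : ℝ => (1 + ε) * x - ε / 2) (1 + ε) u := by
        simpa using ((hasDerivAt_id u).const_mul (1 + ε)).sub_const (ε / 2)
      refine h5.congr_of_eventuallyEq ?_
      filter_upwards [Ioo_mem_nhds h3 h6] with x hx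
      exact ze_mid hx.1.le hx.2.le
    · have h4 : zd ε u = 1 - ε := by
        unfold zd
        rw [if_neg (fun h => absurd h.2 (by linarith))]
      rw [h4]
      have h5 : HasDerivAt (fun x : ℝ => (1 - ε) * x + ε) (1 - ε) u := by
        simpa using ((hasDerivAt_id u).const_mul (1 - ε)).add_const ε
      refine h5.congr_of_eventuallyEq ?_
      filter_upwards [Ioi_mem_nhds h6] with x hx
      exact ze_hi (le_of_lt hx)

theorem zd_zr {ε : ℝ} (h0 : 0 < ε) (h1 : ε ≤ 1 / 2) {u : ℝ} :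
    ENNReal.ofReal |zd ε u| * ENNReal.ofReal (zr ε (ze ε u)) = 1 := by
  have hs := ze_strict h0 h1
  have a1 : ze ε (1 / 4) = (1 - ε) / 4 := by rw [ze_lo le_rfl]; ring
  have a2 : ze ε (3 / 4) = 1 - (1 - ε) / 4 := by rw [ze_hi le_rfl]; ring
  have h2 : ((1 - ε) / 4 < ze ε u ∧ ze ε u < 1 - (1 - ε) / 4) ↔ (1 / 4 < u ∧ u < 3 / 4) := by
    rw [← a2, ← a1, hs.lt_iff_lt, hs.lt_iff_lt]
  rw [← ENNReal.ofReal_mul (abs_nonneg _), ← ENNReal.ofReal_one]
  congr 1
  unfold zd zr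
  simp only [h2]
  have h3 : 0 < 1 - ε := by linarith
  split_ifs
  · rw [abs_of_pos (by positivity)]
    field_simp
  · rw [abs_of_pos h3]
    field_simp

theorem null_pair (a b : ℝ) : volume ({a, b} : Set ℝ) = 0 := (Set.toFinite _).measure_zero _

/-- image of the uniform law -/
theorem ze_map {ε : ℝ} (h0 : 0 < ε) (h1 : ε ≤ 1 / 2) (f : ℝ → ℝ≥0∞) :
    ∫⁻ u in Ioo (0 : ℝ) 1, f (ze ε u) = ∫⁻ v in Ioo (0 : ℝ) 1, ENNReal.ofReal (zr ε v) * f v := by
  have hi := (ze_strict h0 h1).injective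
  have hms : MeasurableSet (Ioo (0 : ℝ) 1 \ {1 / 4, 3 / 4}) :=
    measurableSet_Ioo.diff (Set.toFinite _).measurableSet
  have h2 := lintegral_image_eq_lintegral_abs_deriv_mul (f := ze ε) (f' := zd ε) hms
    (fun x hx => (ze_deriv (fun h => hx.2 (by simp [h])) (fun h => hx.2 (by simp [h]))).hasDerivWithinAt)
    (hi.injOn) (fun v => ENNReal.ofReal (zr ε v) * f v)
  rw [image_sdiff hi, ze_image h0 h1, image_pair] at h2
  have e1 : (Ioo (0 : ℝ) 1 \ {ze ε (1 / 4), ze ε (3 / 4)} : Set ℝ) =ᵐ[volume] Ioo (0 : ℝ) 1 :=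
    sdiff_null_ae_eq_self (null_pair _ _)
  have e2 : (Ioo (0 : ℝ) 1 \ {1 / 4, 3 / 4} : Set ℝ) =ᵐ[volume] Ioo (0 : ℝ) 1 :=
    sdiff_null_ae_eq_self (null_pair _ _)
  rw [setLIntegral_congr e1, setLIntegral_congr e2] at h2
  rw [h2]
  apply lintegral_congr
  intro x
  rw [← mul_assoc, zd_zr h0 h1, one_mul]

variable {w : ℝ → ℝ}

theorem fc_neg (h : LD w) (he : ∀ x, w (-x) = w x) (x : ℝ) : Fc w (-x) = 1 - Fc w x := by
  rw [← fc_Ioi h x]
  unfold Fc
  rw [← integral_comp_neg_Ioi]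
  simp only [he]

theorem fc_zero (h : LD w) (he : ∀ x, w (-x) = w x) : Fc w 0 = 1 / 2 := by
  have := fc_neg h he 0
  rw [neg_zero] at this
  linarith

theorem qt_neg (h : LD w) (he : ∀ x, w (-x) = w x) {u : ℝ} (hu : u ∈ Ioo (0 : ℝ) 1) :
    qt w (1 - u) = -qt w u := by
  have h1 : Fc w (-qt w u) = 1 - u := by rw [fc_neg h he, fc_qt h hu]
  rw [← h1]
  apply qt_fc h
  rw [h1]
  exact ⟨by linarith [hu.2], by linarith [hu.1]⟩

theorem qt_half (h : LD w) (he : ∀ x, w (-x) = w x) : qt w (1 / 2) = 0 := by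
  rw [← fc_zero h he]
  apply qt_fc h
  rw [fc_zero h he]
  norm_num

/-- `Q' ≥ 1 / w 0` -/
theorem qt_lower (h : LD w) (he : ∀ x, w (-x) = w x) {u v : ℝ} (hu : u ∈ Ioo (0 : ℝ) 1)
    (hv : v ∈ Ioo (0 : ℝ) 1) (huv : u ≤ v) : (v - u) / w 0 ≤ qt w v - qt w u := by
  have h0 := w0_pos h he
  have hq : qt w u ≤ qt w v := (qt_strict h).monotoneOn hu hv huv
  have h1 := fc_sub h (qt w u) (qt w v)
  rw [fc_qt h hu, fc_qt h hv] at h1
  have h2 : ∫ x in (qt w u)..(qt w v), w x ≤ ∫ _x in (qt w u)..(qt w v), w 0 :=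
    intervalIntegral.integral_mono_on hq h.int.intervalIntegrable intervalIntegrable_const
      fun x _ => w_le_zero h he x
  rw [intervalIntegral.integral_const, smul_eq_mul, ← h1] at h2
  rw [div_le_iff₀ h0]
  exact h2

open Classical in
/-- the map of the line -/
def Tm (w : ℝ → ℝ) (ε x : ℝ) : ℝ := if Fc w x ∈ Ioo (0 : ℝ) 1 then qt w (ze ε (Fc w x)) else x

theorem Tm_in {ε x : ℝ} (h : Fc w x ∈ Ioo (0 : ℝ) 1) : Tm w ε x = qt w (ze ε (Fc w x)) := if_pos h

theorem Tm_out {ε x : ℝ} (h : Fc w x ∉ Ioo (0 : ℝ) 1) : Tm w ε x = x := if_neg h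

theorem fc_Tm (h : LD w) {ε x : ℝ} (h0 : 0 < ε) (h1 : ε ≤ 1 / 2) (hx : Fc w x ∈ Ioo (0 : ℝ) 1) :
    Fc w (Tm w ε x) = ze ε (Fc w x) := by
  rw [Tm_in hx, fc_qt h (ze_Ioo h0 h1 hx)]

theorem Tm_strict (h : LD w) {ε : ℝ} (h0 : 0 < ε) (h1 : ε ≤ 1 / 2) : StrictMono (Tm w ε) := by
  intro x y hxy
  have hF := fc_mono h hxy.le
  by_cases hx : Fc w x ∈ Ioo (0 : ℝ) 1
  · by_cases hy : Fc w y ∈ Ioo (0 : ℝ) 1
    · rw [Tm_in hx, Tm_in hy]
      apply qt_strict h (ze_Ioo h0 h1 hx) (ze_Ioo h0 h1 hy)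
      apply ze_strict h0 h1
      exact fc_inj h hxy hx.1 hy.2
    · rw [Tm_out hy]
      have hy1 : Fc w y = 1 := by
        apply le_antisymm (fc_le_one h y)
        by_contra hcon
        push Not at hcon
        exact hy ⟨hx.1.trans_le hF, hcon⟩
      by_contra hcon
      push Not at hcon
      have h2 := fc_mono h hcon
      rw [hy1, fc_Tm h h0 h1 hx] at h2
      have := (ze_Ioo h0 h1 hx).2
      linarith
  · rw [Tm_out hx]
    by_cases hy : Fc w y ∈ Ioo (0 : ℝ) 1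
    · have hx0 : Fc w x = 0 := by
        refine le_antisymm ?_ (fc_nonneg h x)
        by_contra hcon
        push Not at hcon
        exact hx ⟨hcon, hF.trans_lt hy.2⟩
      by_contra hcon
      push Not at hcon
      have h2 := fc_mono h hcon
      rw [hx0, fc_Tm h h0 h1 hy] at h2
      have := (ze_Ioo h0 h1 hy).1
      linarith
    · rw [Tm_out hy]
      exact hxy

theorem Tm_neg (h : LD w) (he : ∀ x, w (-x) = w x) {ε : ℝ} (h0 : 0 < ε) (h1 : ε ≤ 1 / 2) (x : ℝ) :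
    Tm w ε (-x) = -Tm w ε x := by
  have hF := fc_neg h he x
  by_cases hx : Fc w x ∈ Ioo (0 : ℝ) 1
  · have hx' : Fc w (-x) ∈ Ioo (0 : ℝ) 1 := by
      rw [hF]
      exact ⟨by linarith [hx.2], by linarith [hx.1]⟩
    rw [Tm_in hx, Tm_in hx', hF, ze_sym, qt_neg h he (ze_Ioo h0 h1 hx)]
  · have hx' : Fc w (-x) ∉ Ioo (0 : ℝ) 1 := by
      rw [hF]
      rintro ⟨a, b⟩
      exact hx ⟨by linarith, by linarith⟩
    rw [Tm_out hx, Tm_out hx']

theorem Tm_bd1 (h : LD w) (he : ∀ x, w (-x) = w x) {ε : ℝ} (h0 : 0 < ε) (h1 : ε ≤ 1 / 2) {x : ℝ}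
    (hx : Fc w x ∈ Ioo (0 : ℝ) 1) (hx2 : Fc w x ≤ 1 / 2) : |Tm w ε x - x| ≤ 4 * ε / w 0 := by
  have hw := w0_pos h he
  set u := Fc w x with hu
  have hxu : qt w u = x := qt_fc h hx
  have hz : (1 - ε) * u ≤ ze ε u ∧ ze ε u ≤ u := by
    rcases le_total u (1 / 4) with h2 | h2
    · rw [ze_lo h2]
      exact ⟨le_rfl, by nlinarith [hx.1]⟩
    · rw [ze_mid h2 (by linarith)]
      constructor <;> nlinarith [hx.1]
  have hzu : u / 2 ≤ ze ε u := by nlinarith [hz.1, hx.1]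
  have hz0 := ze_Ioo h0 h1 hx
  have hsub : Icc (ze ε u) u ⊆ Ioo (0 : ℝ) 1 := fun v hv => ⟨hz0.1.trans_le hv.1, hv.2.trans_lt hx.2⟩
  have key := Convex.norm_image_sub_le_of_norm_hasDerivWithin_le (f := qt w)
    (f' := fun v => (w (qt w v))⁻¹) (C := 4 / (w 0 * u)) (s := Icc (ze ε u) u) (x := u) (y := ze ε u)
    (fun v hv => (qt_deriv h (hsub hv)).hasDerivWithinAt) (by
      intro v hv
      have hv' := hsub hv
      have h2 := qt_hazard h 0 hv'
      have h3 : u / 4 ≤ v * (1 - v) := by nlinarith [hv.1, hv.2, hx.1]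
      have h4 : w 0 * (u / 4) ≤ w (qt w v) := le_trans (by gcongr) h2
      have h5 : 0 < w 0 * (u / 4) := mul_pos hw (by linarith [hx.1])
      rw [Real.norm_eq_abs, abs_of_nonneg (inv_nonneg.2 (h.nonneg _))]
      calc (w (qt w v))⁻¹ ≤ (w 0 * (u / 4))⁻¹ := inv_anti₀ h5 h4
        _ = 4 / (w 0 * u) := by
          have := hx.1.ne'
          field_simp) (convex_Icc _ _) ⟨hz.2, le_rfl⟩ ⟨le_rfl, hz.2⟩
  rw [Tm_in hx, ← hu]
  rw [hxu, Real.norm_eq_abs, Real.norm_eq_abs] at key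
  refine key.trans ?_
  have h6 : |ze ε u - u| ≤ ε * u := by
    rw [abs_of_nonpos (by linarith [hz.2])]
    linarith [hz.1]
  have hu0 := hx.1
  calc 4 / (w 0 * u) * |ze ε u - u| ≤ 4 / (w 0 * u) * (ε * u) := by gcongr
    _ = 4 * ε / w 0 := by field_simp

theorem Tm_bd (h : LD w) (he : ∀ x, w (-x) = w x) {ε : ℝ} (h0 : 0 < ε) (h1 : ε ≤ 1 / 2) (x : ℝ) :
    |Tm w ε x - x| ≤ 4 * ε / w 0 := by
  have hw := w0_pos h he
  by_cases hx : Fc w x ∈ Ioo (0 : ℝ) 1
  · rcases le_total (Fc w x) (1 / 2) with h2 | h2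
    · exact Tm_bd1 h he h0 h1 hx h2
    · have hF := fc_neg h he x
      have h3 := Tm_bd1 h he h0 h1 (x := -x) (by rw [hF]; exact ⟨by linarith [hx.2], by linarith [hx.1]⟩)
        (by rw [hF]; linarith)
      rw [Tm_neg h he h0 h1] at h3
      rw [← abs_neg]
      have h4 : -(Tm w ε x - x) = -Tm w ε x - -x := by ring
      rw [h4]
      exact h3
  · rw [Tm_out hx, sub_self, abs_zero]
    positivity

theorem Tm_ge (h : LD w) (he : ∀ x, w (-x) = w x) {ε : ℝ} (h0 : 0 < ε) (h1 : ε ≤ 1 / 2) {x : ℝ}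
    (hx : 0 ≤ x) : x ≤ Tm w ε x := by
  by_cases hF : Fc w x ∈ Ioo (0 : ℝ) 1
  · rw [Tm_in hF]
    have h2 : 1 / 2 ≤ Fc w x := by
      rw [← fc_zero h he]
      exact fc_mono h hx
    have h3 : Fc w x ≤ ze ε (Fc w x) := by
      rcases le_total (Fc w x) (3 / 4) with h4 | h4
      · rw [ze_mid (by linarith) h4]
        nlinarith
      · rw [ze_hi h4]
        nlinarith [hF.2]
    conv_lhs => rw [← qt_fc h hF]
    exact (qt_strict h).monotoneOn hF (ze_Ioo h0 h1 hF) h3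
  · rw [Tm_out hF]

theorem prod_nonneg' (h : LD w) (he : ∀ x, w (-x) = w x) {ε : ℝ} (h0 : 0 < ε) (h1 : ε ≤ 1 / 2)
    (x : ℝ) : 0 ≤ x * (Tm w ε x - x) := by
  rcases le_total 0 x with hx | hx
  · exact mul_nonneg hx (by linarith [Tm_ge h he h0 h1 hx])
  · have h2 := Tm_ge h he h0 h1 (x := -x) (by linarith)
    rw [Tm_neg h he h0 h1] at h2
    nlinarith

theorem t_MAP : S_MAP := by
  refine ⟨512, by norm_num, fun w h he ε h0 h1 => ?_⟩
  have hw := w0_pos h he
  have hmT : Measurable (Tm w ε) := (Tm_strict h h0 h1).monotone.measurable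
  have hmF : Measurable (Fc w) := (fc_mono h).measurable
  have hmr : Measurable (fun x => zr ε (Fc w x)) := (zr_meas ε).comp hmF
  have hmQ : AEMeasurable (qt w) (volume.restrict (Ioo (0 : ℝ) 1)) :=
    aemeasurable_restrict_of_monotoneOn measurableSet_Ioo (qt_strict h).monotoneOn
  have hT : (fun x => x + (Tm w ε x - x)) = Tm w ε := by
    funext x
    ring
  refine ⟨fun x => Tm w ε x - x, fun x => zr ε (Fc w x), hmT.sub measurable_id, hmr, ?_, ?_, ?_, ?_,
    ?_, ?_, ?_⟩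
  · intro x
    simp only
    rw [Tm_neg h he h0 h1]
    ring
  · intro x
    simp only
    rw [fc_neg h he, zr_sym]
  · simp only
    rw [hT]
    exact Tm_strict h h0 h1
  · intro x
    exact zr_bd h0 h1 _
  · simp only
    rw [hT]
    apply Measure.ext_of_lintegral
    intro f hf
    rw [lintegral_map hf hmT, lintegral_withDensity_eq_lintegral_mul _ hmr.ennreal_ofReal hf,
      ← qt_map h]
    have e3 : ∫⁻ a, f (Tm w ε a) ∂(Measure.map (qt w) (volume.restrict (Ioo (0 : ℝ) 1))) =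
        ∫⁻ u in Ioo (0 : ℝ) 1, f (Tm w ε (qt w u)) :=
      lintegral_map' (f := fun a => f (Tm w ε a)) (hf.comp hmT).aemeasurable hmQ
    rw [e3, lintegral_map' (hmr.ennreal_ofReal.mul hf).aemeasurable hmQ]
    have e1 : ∫⁻ u in Ioo (0 : ℝ) 1, f (Tm w ε (qt w u)) =
        ∫⁻ u in Ioo (0 : ℝ) 1, f (qt w (ze ε u)) := by
      apply setLIntegral_congr_fun measurableSet_Ioo
      intro u hu
      simp only
      rw [Tm_in (by rw [fc_qt h hu]; exact hu), fc_qt h hu]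
    have e2 : ∫⁻ u in Ioo (0 : ℝ) 1, ((fun x => ENNReal.ofReal (zr ε (Fc w x))) * f) (qt w u) =
        ∫⁻ u in Ioo (0 : ℝ) 1, ENNReal.ofReal (zr ε u) * f (qt w u) := by
      apply setLIntegral_congr_fun measurableSet_Ioo
      intro u hu
      simp only [Pi.mul_apply]
      rw [fc_qt h hu]
    rw [e1, e2]
    exact ze_map h0 h1 (fun v => f (qt w v))
  · intro x
    refine (Tm_bd h he h0 h1 x).trans ?_
    gcongr
    norm_num
  · -- lower bound
    have hmg : Measurable (fun x => x * (Tm w ε x - x)) := measurable_id.mul (hmT.sub measurable_id)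
    have hint : Integrable (fun x => x * (Tm w ε x - x)) (nu w) := by
      have h2 := (t_M2 w h he).2.1
      have hfin : IsFiniteMeasure (nu w) := by
        unfold nu
        exact isFiniteMeasure_withDensity_ofReal h.int.2
      refine Integrable.mono' ((h2.add (integrable_const 1)).mul_const (4 * ε / w 0))
        hmg.aestronglyMeasurable (Eventually.of_forall fun x => ?_)
      rw [norm_mul, Real.norm_eq_abs, Real.norm_eq_abs, Pi.add_apply]
      have h3 := Tm_bd h he h0 h1 x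
      have h4 : |x| ≤ x ^ 2 + 1 := by
        rw [← sq_abs x]
        nlinarith [sq_nonneg (|x| - 1), abs_nonneg x]
      exact mul_le_mul h4 h3 (abs_nonneg _) (by positivity)
    rw [← qt_map h] at hint ⊢
    rw [integral_map hmQ hmg.aestronglyMeasurable]
    have hint2 : IntegrableOn (fun u => qt w u * (Tm w ε (qt w u) - qt w u)) (Ioo 0 1) :=
      hint.comp_aemeasurable hmQ
    have hJ : Icc (5 / 8 : ℝ) (3 / 4) ⊆ Ioo (0 : ℝ) 1 := fun u hu =>
      ⟨by linarith [hu.1], by linarith [hu.2]⟩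
    have h5 : ∫ u in Icc (5 / 8 : ℝ) (3 / 4), qt w u * (Tm w ε (qt w u) - qt w u) ≤
        ∫ u in Ioo (0 : ℝ) 1, qt w u * (Tm w ε (qt w u) - qt w u) :=
      setIntegral_mono_set hint2 (Eventually.of_forall fun u => prod_nonneg' h he h0 h1 _)
        (Eventually.of_forall hJ)
    have h6 : ∫ _u in Icc (5 / 8 : ℝ) (3 / 4), (1 / 8 / w 0) * (ε / 8 / w 0) ≤
        ∫ u in Icc (5 / 8 : ℝ) (3 / 4), qt w u * (Tm w ε (qt w u) - qt w u) := by
      refine setIntegral_mono_on ?_ (hint2.mono_set hJ) measurableSet_Icc ?_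
      · exact integrableOn_const (by simp)
      · intro u hu
        have hu' := hJ hu
        have a1 := qt_lower h he (u := 1 / 2) (v := u) (by norm_num) hu' (by linarith [hu.1])
        rw [qt_half h he, sub_zero] at a1
        have a2 : 1 / 8 / w 0 ≤ qt w u := by
          refine le_trans ?_ a1
          gcongr
          linarith [hu.1]
        have hz := ze_Ioo h0 h1 hu'
        have a3 : ze ε u = (1 + ε) * u - ε / 2 := ze_mid (by linarith [hu.1]) hu.2
        have a4 := qt_lower h he (u := u) (v := ze ε u) hu' hz (by rw [a3]; nlinarith [hu.1])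
        have a5 : ε / 8 / w 0 ≤ Tm w ε (qt w u) - qt w u := by
          rw [Tm_in (by rw [fc_qt h hu']; exact hu'), fc_qt h hu']
          refine le_trans ?_ a4
          gcongr
          rw [a3]
          nlinarith [hu.1]
        exact mul_le_mul a2 a5 (by positivity) (le_trans (by positivity) a2)
    rw [setIntegral_const, smul_eq_mul] at h6
    have h7 : volume.real (Icc (5 / 8 : ℝ) (3 / 4)) = 1 / 8 := by
      rw [Real.volume_real_Icc]
      norm_num
    rw [h7] at h6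
    calc ε / (512 * w 0 ^ 2) = 1 / 8 * ((1 / 8 / w 0) * (ε / 8 / w 0)) := by
          field_simp
          norm_num
      _ ≤ _ := h6.trans h5

end

end Pool.Agent.J4H49.KB
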