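import Pool.Agent.J4H58.SB.Bas
import Pool.Agent.R364.OP.RS

/-!
# KB-RSB: Riemann sums over the admissible placements (helper49, for project KB of helper58;
adapted from `Pool.Agent.R364.OP.RS`)
-/

set_option autoImplicit false

namespace Pool.Agent.J4H49.KB

open MeasureTheory Set Filter Topology
open Pool.Agent.J4H58.SB
open Pool.Agent.R972.OP (lp)
open Pool.Agent.R364.OP (fl cell mem_cell measurableSet_cell volume_cell null_eq null_const
  lp_fl_tendsto)

variable {n : ℕ}

open Classical in
/-- step function -/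
noncomputable def hB (R : SL n → SL n → Prop) (G : (Fin n → ℝ) → ℝ) (N : ℕ)
    (x : Fin n → ℝ) : ℝ :=
  if (∀ a, 0 ≤ x a) ∧ fl (2 * N) x ∈ cfgB N R then G (lp (2 * N) (fl (2 * N) x)) else 0

theorem hB_eq (R : SL n → SL n → Prop) (G : (Fin n → ℝ) → ℝ) {N : ℕ} (hN : 0 < N)
    (x : Fin n → ℝ) :
    hB R G N x = ∑ g ∈ cfgB N R, (cell (2 * N) g).indicator (fun _ => G (lp (2 * N) g)) x := by
  classical
  have hN2 : 0 < 2 * N := by omega
  unfold hB
  by_cases h0 : ∀ a, 0 ≤ x a
  · have : ∀ g ∈ cfgB N R, (cell (2 * N) g).indicator (fun _ => G (lp (2 * N) g)) x =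
        if fl (2 * N) x = g then G (lp (2 * N) g) else 0 := by
      intro g _
      by_cases h : fl (2 * N) x = g
      · rw [if_pos h, indicator_of_mem ((mem_cell hN2 g x).2 ⟨h0, h⟩)]
      · rw [if_neg h, indicator_of_notMem]
        intro hx
        exact h ((mem_cell hN2 g x).1 hx).2
    rw [Finset.sum_congr rfl this, Finset.sum_ite_eq]
    by_cases h1 : fl (2 * N) x ∈ cfgB N R
    · rw [if_pos ⟨h0, h1⟩, if_pos h1]
    · rw [if_neg (fun h => h1 h.2), if_neg h1]
  · rw [if_neg (fun h => h0 h.1)]
    symm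
    apply Finset.sum_eq_zero
    intro g _
    rw [indicator_of_notMem]
    intro hx
    exact h0 ((mem_cell hN2 g x).1 hx).1

theorem integral_hB (R : SL n → SL n → Prop) (G : (Fin n → ℝ) → ℝ) {N : ℕ} (hN : 0 < N) :
    ∫ x, hB R G N x = (∑ g ∈ cfgB N R, G (lp (2 * N) g)) / ((2 * N : ℕ) : ℝ) ^ n := by
  have hN2 : 0 < 2 * N := by omega
  have : ∀ x, hB R G N x =
      ∑ g ∈ cfgB N R, (cell (2 * N) g).indicator (fun _ => G (lp (2 * N) g)) x := hB_eq R G hN
  simp only [this]
  have hfin : ∀ g : Fin n → ℕ, volume (cell (2 * N) g) ≠ ⊤ := by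
    intro g
    unfold cell
    rw [Real.volume_pi_Ico]
    exact ENNReal.prod_ne_top fun a _ => ENNReal.ofReal_ne_top
  rw [integral_finsetSum]
  · rw [Finset.sum_div]
    apply Finset.sum_congr rfl
    intro g _
    rw [integral_indicator_const _ (measurableSet_cell (2 * N) g), volume_cell hN2, smul_eq_mul]
    ring
  · intro g _
    rw [integrable_indicator_iff (measurableSet_cell (2 * N) g)]
    exact integrableOn_const (hfin g)

theorem null_sum {a b : Fin n} (hab : a ≠ b) :
    (volume : Measure (Fin n → ℝ)) {x | x a + x b = 1} = 0 := by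
  have h := Measure.addHaar_submodule (volume : Measure (Fin n → ℝ))
    (LinearMap.ker (LinearMap.proj (R := ℝ) (φ := fun _ : Fin n => ℝ) a + LinearMap.proj b)) (by
      intro h
      have h2 : (Pi.single a (1 : ℝ) : Fin n → ℝ) ∈ LinearMap.ker
        (LinearMap.proj (R := ℝ) (φ := fun _ : Fin n => ℝ) a + LinearMap.proj b) := by
        rw [h]; trivial
      rw [LinearMap.mem_ker] at h2
      simp [hab.symm] at h2)
  have h3 := measure_preimage_add_right (volume : Measure (Fin n → ℝ))
    (Pi.single a (1 : ℝ) : Fin n → ℝ) {x | x a + x b = 1}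
  rw [← h3]
  convert h using 2
  ext x
  simp only [mem_preimage, mem_ofPred_eq, Pi.add_apply, Pi.single_eq_same, SetLike.mem_coe,
    LinearMap.mem_ker, LinearMap.add_apply, LinearMap.proj_apply]
  rw [Pi.single_eq_of_ne hab.symm]
  constructor
  · intro h
    linarith
  · intro h
    linarith

/-- almost every point is in general position -/
theorem ae_gen : ∀ᵐ x : Fin n → ℝ, (∀ y z : SL n, y ≠ z → cv x y ≠ cv x z) ∧ (∀ a, x a ≠ 1) := by
  have hc : ∀ a : Fin n, ∀ c : ℝ, ∀ᵐ x : Fin n → ℝ, x a ≠ c := by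
    intro a c
    rw [ae_iff]
    refine measure_mono_null ?_ (null_const (n := n) a c)
    intro x hx
    simpa using hx
  have h1 : ∀ a b : Fin n, a ≠ b → ∀ᵐ x : Fin n → ℝ, x a ≠ x b ∧ x a + x b ≠ 1 := by
    intro a b hab
    have e1 : ∀ᵐ x : Fin n → ℝ, x a ≠ x b := by
      rw [ae_iff]
      refine measure_mono_null ?_ (null_eq (n := n) hab)
      intro x hx
      simpa using hx
    have e2 : ∀ᵐ x : Fin n → ℝ, x a + x b ≠ 1 := by
      rw [ae_iff]
      refine measure_mono_null ?_ (null_sum (n := n) hab)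
      intro x hx
      simpa using hx
    filter_upwards [e1, e2] with x hx1 hx2
    exact ⟨hx1, hx2⟩
  have h2 : ∀ y z : SL n, ∀ᵐ x : Fin n → ℝ, y ≠ z → cv x y ≠ cv x z := by
    intro y z
    by_cases hab : y.1 = z.1
    · filter_upwards [hc y.1 (1 / 2)] with x hx hyz
      obtain ⟨a, s⟩ := y
      obtain ⟨b, t⟩ := z
      simp only at hab hx
      subst hab
      cases s <;> cases t
      · exact absurd rfl hyz
      · simp only [cv, Bool.false_eq_true, if_false, if_true]
        intro h
        exact hx (by linarith)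
      · simp only [cv, Bool.false_eq_true, if_false, if_true]
        intro h
        exact hx (by linarith)
      · exact absurd rfl hyz
    · filter_upwards [h1 y.1 z.1 hab] with x hx _
      obtain ⟨a, s⟩ := y
      obtain ⟨b, t⟩ := z
      simp only at hab hx
      cases s <;> cases t
      · simp only [cv, Bool.false_eq_true, if_false]
        intro h
        exact hx.1 (by linarith)
      · simp only [cv, Bool.false_eq_true, if_false, if_true]
        intro h
        exact hx.2 (by linarith)
      · simp only [cv, Bool.false_eq_true, if_false, if_true]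
        intro h
        exact hx.2 (by linarith)
      · simp only [cv, if_true]
        exact hx.1
  have h3 : ∀ᵐ x : Fin n → ℝ, ∀ y z : SL n, y ≠ z → cv x y ≠ cv x z := by
    rw [ae_all_iff]; intro y
    rw [ae_all_iff]; intro z
    exact h2 y z
  have h4 : ∀ᵐ x : Fin n → ℝ, ∀ a, x a ≠ 1 := by
    rw [ae_all_iff]; intro a
    exact hc a 1
  filter_upwards [h3, h4] with x hx hy
  exact ⟨hx, hy⟩

theorem two_tendsto : Tendsto (fun N : ℕ => 2 * N) atTop atTop :=
  tendsto_id.const_mul_atTop' (by norm_num)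

/-- the sites of the signed labels, rescaled -/
theorem ps_tendsto {x : Fin n → ℝ} (h0 : ∀ a, 0 ≤ x a) (h1 : ∀ a, x a < 1) (y : SL n) :
    Tendsto (fun N : ℕ => (ps N (fl (2 * N) x) y : ℝ) / ((2 * N : ℕ) : ℝ)) atTop (𝓝 (cv x y)) := by
  obtain ⟨a, s⟩ := y
  have hl : Tendsto (fun N : ℕ => (fl (2 * N) x a : ℝ) / ((2 * N : ℕ) : ℝ)) atTop (𝓝 (x a)) := by
    have := (tendsto_pi_nhds.1 (lp_fl_tendsto h0) a).comp two_tendsto
    exact this
  cases s
  · have h2 : Tendsto (fun N : ℕ => 1 - 1 / ((2 * N : ℕ) : ℝ) - (fl (2 * N) x a : ℝ) / ((2 * N : ℕ) : ℝ))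
        atTop (𝓝 (1 - 0 - x a)) := by
      refine (tendsto_const_nhds.sub ?_).sub hl
      exact (tendsto_const_div_atTop_nhds_zero_nat (1 : ℝ)).comp two_tendsto
    have h3 : cv x (a, false) = 1 - 0 - x a := by
      simp [cv]
    rw [h3]
    refine h2.congr' ?_
    filter_upwards [eventually_gt_atTop 0] with N hN
    have hN' : (0 : ℝ) < ((2 * N : ℕ) : ℝ) := by exact_mod_cast (by omega : 0 < 2 * N)
    have h4 : fl (2 * N) x a < 2 * N := by
      unfold fl
      rw [Nat.floor_lt (mul_nonneg (h0 a) hN'.le)]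
      nlinarith [h1 a]
    have h5 : (ps N (fl (2 * N) x) (a, false) : ℝ) = ((2 * N : ℕ) : ℝ) - 1 - (fl (2 * N) x a : ℝ) := by
      simp only [ps, Bool.false_eq_true, if_false, mir]
      rw [Nat.cast_sub (by omega), Nat.cast_sub (by omega)]
      simp
    rw [h5]
    field_simp
  · have h3 : cv x (a, true) = x a := by
      simp [cv]
    rw [h3]
    refine hl.congr fun N => ?_
    simp [ps]

theorem ps_lt_ev {x : Fin n → ℝ} (h0 : ∀ a, 0 ≤ x a) (h1 : ∀ a, x a < 1) {y z : SL n}
    (h : cv x y < cv x z) :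
    ∀ᶠ N : ℕ in atTop, ps N (fl (2 * N) x) y < ps N (fl (2 * N) x) z := by
  have h2 := (ps_tendsto h0 h1 y).eventually_lt (ps_tendsto h0 h1 z) h
  filter_upwards [h2, eventually_gt_atTop 0] with N hN hN0
  have hN' : (0 : ℝ) < ((2 * N : ℕ) : ℝ) := by exact_mod_cast (by omega : 0 < 2 * N)
  rw [div_lt_div_iff_of_pos_right hN'] at hN
  exact_mod_cast hN

theorem mem_cfgB' {N : ℕ} {R : SL n → SL n → Prop} {g : Fin n → ℕ} : g ∈ cfgB N R ↔
    (∀ a, g a < 2 * N) ∧ Function.Injective (ps N g) ∧ ∀ x y, R x y → ps N g x < ps N g y := by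
  classical
  unfold cfgB
  rw [Finset.mem_filter, Fintype.mem_piFinset]
  simp only [Finset.mem_range]

theorem pointwiseB {R : SL n → SL n → Prop} (hR : ∀ a, ¬ R a a) {G : (Fin n → ℝ) → ℝ}
    (hG : Continuous G) {x : Fin n → ℝ} (hd : ∀ y z : SL n, y ≠ z → cv x y ≠ cv x z)
    (h1 : ∀ a, x a ≠ 1) :
    Tendsto (fun N : ℕ => hB R G N x) atTop (𝓝 ((OPB R).indicator G x)) := by
  classical
  by_cases hx : x ∈ OPB R
  · rw [indicator_of_mem hx]
    obtain ⟨hc, hr⟩ := hx
    have h0 : ∀ a, 0 ≤ x a := fun a => (hc a).1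
    have h1' : ∀ a, x a < 1 := fun a => lt_of_le_of_ne (hc a).2 (h1 a)
    have hev1 : ∀ᶠ N : ℕ in atTop, ∀ y z : SL n, cv x y < cv x z →
        ps N (fl (2 * N) x) y < ps N (fl (2 * N) x) z := by
      rw [eventually_all]; intro y
      rw [eventually_all]; intro z
      by_cases hyz : cv x y < cv x z
      · filter_upwards [ps_lt_ev h0 h1' hyz] with N hN _
        exact hN
      · exact Eventually.of_forall fun N h => absurd h hyz
    have hev : ∀ᶠ N : ℕ in atTop, G (lp (2 * N) (fl (2 * N) x)) = hB R G N x := by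
      filter_upwards [hev1, eventually_gt_atTop 0] with N hN hN0
      have hN' : (0 : ℝ) < ((2 * N : ℕ) : ℝ) := by exact_mod_cast (by omega : 0 < 2 * N)
      unfold hB
      rw [if_pos]
      refine ⟨h0, mem_cfgB'.2 ⟨?_, ?_, ?_⟩⟩
      · intro a
        unfold fl
        rw [Nat.floor_lt (mul_nonneg (h0 a) hN'.le)]
        nlinarith [h1' a]
      · intro y z hyz
        by_contra hne
        rcases lt_or_gt_of_ne (hd y z hne) with h | h
        · exact absurd hyz (ne_of_lt (hN y z h))
        · exact absurd hyz (ne_of_gt (hN z y h))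
      · intro y z hyz
        have hne : y ≠ z := by rintro rfl; exact hR y hyz
        exact hN y z (lt_of_le_of_ne (hr y z hyz) (hd y z hne))
    refine Tendsto.congr' hev ?_
    exact (hG.tendsto x).comp ((lp_fl_tendsto h0).comp two_tendsto)
  · rw [indicator_of_notMem hx]
    by_cases hc : ∀ a, 0 ≤ x a ∧ x a ≤ 1
    · -- some relation fails
      have h0 : ∀ a, 0 ≤ x a := fun a => (hc a).1
      have h1' : ∀ a, x a < 1 := fun a => lt_of_le_of_ne (hc a).2 (h1 a)
      have h2 : ∃ y z, R y z ∧ cv x z < cv x y := by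
        by_contra hcon
        push Not at hcon
        exact hx ⟨hc, fun y z hyz => hcon y z hyz⟩
      obtain ⟨y, z, hyz, hlt⟩ := h2
      have hev : ∀ᶠ N : ℕ in atTop, (0 : ℝ) = hB R G N x := by
        filter_upwards [ps_lt_ev h0 h1' hlt] with N hN
        unfold hB
        rw [if_neg]
        rintro ⟨-, hcf⟩
        have := (mem_cfgB'.1 hcf).2.2 y z hyz
        omega
      exact Tendsto.congr' hev tendsto_const_nhds
    · have hev : ∀ᶠ N : ℕ in atTop, (0 : ℝ) = hB R G N x := by
        filter_upwards [eventually_gt_atTop 0] with N hN0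
        have hN' : (0 : ℝ) < ((2 * N : ℕ) : ℝ) := by exact_mod_cast (by omega : 0 < 2 * N)
        unfold hB
        rw [if_neg]
        rintro ⟨h0, hcf⟩
        apply hc
        refine fun a => ⟨h0 a, ?_⟩
        have := (mem_cfgB'.1 hcf).1 a
        unfold fl at this
        rw [Nat.floor_lt (mul_nonneg (h0 a) hN'.le)] at this
        by_contra hcon
        push Not at hcon
        nlinarith
      exact Tendsto.congr' hev tendsto_const_nhds

theorem cv_cont (y : SL n) : Continuous fun x : Fin n → ℝ => cv x y := by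
  obtain ⟨a, s⟩ := y
  cases s
  · simp only [cv, Bool.false_eq_true, if_false]
    fun_prop
  · simp only [cv, if_true]
    fun_prop

theorem measurableSet_OPB (R : SL n → SL n → Prop) : MeasurableSet (OPB R) := by
  have : IsClosed (OPB R) := by
    have h1 : OPB R = (⋂ i, ({x : Fin n → ℝ | 0 ≤ x i} ∩ {x : Fin n → ℝ | x i ≤ 1})) ∩
        ⋂ i, ⋂ j, ⋂ (_ : R i j), {x : Fin n → ℝ | cv x i ≤ cv x j} := by
      ext x
      simp [OPB]
    rw [h1]
    refine IsClosed.inter (isClosed_iInter fun i => IsClosed.inter ?_ ?_)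
      (isClosed_iInter fun i => isClosed_iInter fun j => isClosed_iInter fun _ => ?_)
    · exact isClosed_le continuous_const (continuous_apply i)
    · exact isClosed_le (continuous_apply i) continuous_const
    · exact isClosed_le (cv_cont i) (cv_cont j)
  exact this.measurableSet

theorem t_RSB : S_RSB := by
  classical
  intro n R hR G hG
  have hK : IsCompact (Icc (0 : Fin n → ℝ) 1) := isCompact_Icc
  obtain ⟨M, hM⟩ := hK.exists_bound_of_continuousOn hG.continuousOn
  have hM0 : 0 ≤ M := le_trans (norm_nonneg _) (hM 0 ⟨le_refl _, zero_le_one⟩)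
  have hlim : Tendsto (fun N : ℕ => ∫ x, hB R G N x) atTop (𝓝 (∫ x, (OPB R).indicator G x)) := by
    refine tendsto_integral_filter_of_dominated_convergence
      ((Icc (0 : Fin n → ℝ) 1).indicator fun _ => M) ?_ ?_ ?_ ?_
    · filter_upwards [eventually_gt_atTop 0] with N hN
      have : hB R G N = fun x =>
          ∑ g ∈ cfgB N R, (cell (2 * N) g).indicator (fun _ => G (lp (2 * N) g)) x :=
        funext (hB_eq R G hN)
      rw [this]
      apply Measurable.aestronglyMeasurable
      exact Finset.measurable_sum _ fun g _ =>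
        measurable_const.indicator (measurableSet_cell (2 * N) g)
    · filter_upwards [eventually_gt_atTop 0] with N hN
      have hN' : (0 : ℝ) < ((2 * N : ℕ) : ℝ) := by exact_mod_cast (by omega : 0 < 2 * N)
      refine Eventually.of_forall fun x => ?_
      unfold hB
      by_cases h : (∀ a, 0 ≤ x a) ∧ fl (2 * N) x ∈ cfgB N R
      · rw [if_pos h]
        obtain ⟨h0, hcf⟩ := h
        have hlt := (mem_cfgB'.1 hcf).1
        have hxm : x ∈ Icc (0 : Fin n → ℝ) 1 := by
          refine ⟨fun a => h0 a, fun a => ?_⟩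
          have := hlt a
          unfold fl at this
          rw [Nat.floor_lt (mul_nonneg (h0 a) hN'.le)] at this
          by_contra hcon
          push Not at hcon
          have h2 : (1 : ℝ) < x a := hcon
          nlinarith
        rw [indicator_of_mem hxm]
        apply hM
        refine ⟨fun a => ?_, fun a => ?_⟩
        · show (0 : ℝ) ≤ (fl (2 * N) x a : ℝ) / ((2 * N : ℕ) : ℝ)
          positivity
        · show (fl (2 * N) x a : ℝ) / ((2 * N : ℕ) : ℝ) ≤ 1
          rw [div_le_one hN']
          exact_mod_cast (hlt a).le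
      · rw [if_neg h, norm_zero]
        exact indicator_nonneg (fun _ _ => hM0) x
    · rw [integrable_indicator_iff measurableSet_Icc]
      exact integrableOn_const hK.measure_lt_top.ne
    · filter_upwards [ae_gen (n := n)] with x hx
      exact pointwiseB hR hG hx.1 hx.2
  rw [integral_indicator (measurableSet_OPB R)] at hlim
  refine Tendsto.congr' ?_ hlim
  filter_upwards [eventually_gt_atTop 0] with N hN
  exact integral_hB R G hN

end Pool.Agent.J4H49.KB
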